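import Pool.Agent.Helper50_HAM.Cyc

/-!
# HAM, module COM: adding an edge joins at most two components
-/

namespace Pool.Agent.HAM.H50

open Equiv

section

variable {E : Type} [DecidableEq E]

theorem flip_insert_ne (S : Finset E) (e : E) (d : Dart E) (hd : d.1 ≠ e) :
    flip (insert e S) d = flip S d := by
  have h : (d.1 ∈ insert e S) = (d.1 ∈ S) := by
    rw [Finset.mem_insert]
    simp [hd]
  change ((d.1, if d.1 ∈ insert e S then !d.2 else d.2) : Dart E) =
    (d.1, if d.1 ∈ S then !d.2 else d.2)
  simp only [h]

theorem flip_insert_self (S : Finset E) (e : E) (b : Bool) :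
    flip (insert e S) (e, b) = (e, !b) := by
  change ((e, if e ∈ insert e S then !b else b) : Dart E) = (e, !b)
  rw [if_pos (Finset.mem_insert_self e S)]

theorem flip_self_of_not_mem (S : Finset E) (e : E) (he : e ∉ S) (b : Bool) :
    flip S (e, b) = (e, b) := by
  change ((e, if e ∈ S then !b else b) : Dart E) = (e, b)
  rw [if_neg he]

theorem conn_sigma (σ : Perm (Dart E)) (S : Finset E) (d : Dart E) : (conn σ S).r d (σ d) :=
  Relation.EqvGen.rel _ _ (Or.inl rfl)

theorem conn_flip (σ : Perm (Dart E)) (S : Finset E) (d : Dart E) : (conn σ S).r d (flip S d) :=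
  Relation.EqvGen.rel _ _ (Or.inr rfl)

/-- induction on the generated relation -/
theorem conn_ind (σ : Perm (Dart E)) (S : Finset E) (R : Dart E → Dart E → Prop)
    (hr : ∀ u, R u u) (hs : ∀ u v, R u v → R v u) (ht : ∀ u v w, R u v → R v w → R u w)
    (h1 : ∀ d, R d (σ d)) (h2 : ∀ d, R d (flip S d)) {u v : Dart E} (h : (conn σ S).r u v) :
    R u v := by
  have h' : Relation.EqvGen (fun x y => y = σ x ∨ y = flip S x) u v := h
  induction h' with
  | rel a b hab =>
    rcases hab with rfl | rfl
    · exact h1 _
    · exact h2 _
  | refl a => exact hr a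
  | symm a b _ ih => exact hs _ _ (ih (by assumption))
  | trans a b c _ _ ih1 ih2 => exact ht _ _ _ (ih1 (by assumption)) (ih2 (by assumption))

theorem conn_insert_iff (σ : Perm (Dart E)) (S : Finset E) (e : E) (he : e ∉ S)
    (u v : Dart E) :
    (conn σ (insert e S)).r u v ↔ Jn (conn σ S) (e, false) (e, true) u v := by
  constructor
  · intro h
    refine conn_ind σ (insert e S) (Jn (conn σ S) (e, false) (e, true)) (jn_refl _ _ _)
      (fun _ _ => jn_symm _ _ _) (fun _ _ _ => jn_trans _ _ _)
      (fun d => Or.inl (conn_sigma σ S d)) ?_ h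
    rintro ⟨f, b⟩
    by_cases hf : f = e
    · subst hf
      rw [flip_insert_self]
      cases b
      · exact Or.inr (Or.inl ⟨(conn σ S).refl' _, (conn σ S).refl' _⟩)
      · exact Or.inr (Or.inr ⟨(conn σ S).refl' _, (conn σ S).refl' _⟩)
    · rw [flip_insert_ne S e (f, b) hf]
      exact Or.inl (conn_flip σ S _)
  · have key : ∀ a b, (conn σ S).r a b → (conn σ (insert e S)).r a b := by
      intro a b hab
      refine conn_ind σ S (fun a b => (conn σ (insert e S)).r a b)
        (fun u => (conn σ (insert e S)).refl' u) (fun _ _ h => (conn σ (insert e S)).symm' h)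
        (fun _ _ _ h h' => (conn σ (insert e S)).trans' h h') (conn_sigma σ _) ?_ hab
      rintro ⟨f, b⟩
      by_cases hf : f = e
      · subst hf
        have h3 := flip_self_of_not_mem S f he b
        exact h3.symm ▸ (conn σ (insert f S)).refl' _
      · rw [← flip_insert_ne S e (f, b) hf]
        exact conn_flip σ _ _
    have hj : (conn σ (insert e S)).r (e, false) (e, true) := by
      have h := conn_flip σ (insert e S) (e, false)
      rwa [flip_insert_self] at h
    rintro (h | ⟨h1, h2⟩ | ⟨h1, h2⟩)
    · exact key _ _ h
    · exact (conn σ (insert e S)).trans' (key _ _ h1)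
        ((conn σ (insert e S)).trans' hj ((conn σ (insert e S)).symm' (key _ _ h2)))
    · exact (conn σ (insert e S)).trans' (key _ _ h1)
        ((conn σ (insert e S)).trans' ((conn σ (insert e S)).symm' hj)
          ((conn σ (insert e S)).symm' (key _ _ h2)))

end

/-- module COM -/
theorem com : ComStmt := by
  intro E _ _ σ S e he
  constructor
  · intro h
    have h1 : conn σ (insert e S) = conn σ S := by
      refine Setoid.ext ?_
      intro u v
      rw [conn_insert_iff σ S e he]
      constructor
      · rintro (h2 | ⟨h2, h3⟩ | ⟨h2, h3⟩)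
        · exact h2
        · exact (conn σ S).trans' h2 ((conn σ S).trans' h ((conn σ S).symm' h3))
        · exact (conn σ S).trans' h2
            ((conn σ S).trans' ((conn σ S).symm' h) ((conn σ S).symm' h3))
      · exact Or.inl
    unfold comp
    rw [h1]
  · intro h
    exact merge (conn σ S) (conn σ (insert e S)) (e, false) (e, true) h
      (conn_insert_iff σ S e he)

end Pool.Agent.HAM.H50
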