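import Pool.Agent.Helper43_HAM.Stmts

/-!
# HAM, modules CYC and COM: merging two classes
-/

namespace Pool.Agent.HAM.H50

open Equiv

section Merge

variable {D : Type}

/-- the relation obtained from `s` by joining the classes of `x` and `y` -/
def Jn (s : Setoid D) (x y u v : D) : Prop :=
  s.r u v ∨ (s.r u x ∧ s.r v y) ∨ (s.r u y ∧ s.r v x)

theorem jn_refl (s : Setoid D) (x y u : D) : Jn s x y u u := Or.inl (s.refl' u)

theorem jn_symm (s : Setoid D) (x y : D) {u v : D} (h : Jn s x y u v) : Jn s x y v u := by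
  rcases h with h | ⟨h1, h2⟩ | ⟨h1, h2⟩
  · exact Or.inl (s.symm' h)
  · exact Or.inr (Or.inr ⟨h2, h1⟩)
  · exact Or.inr (Or.inl ⟨h2, h1⟩)

theorem jn_trans (s : Setoid D) (x y : D) {u v w : D} (h : Jn s x y u v) (h' : Jn s x y v w) :
    Jn s x y u w := by
  rcases h with h | ⟨h1, h2⟩ | ⟨h1, h2⟩ <;> rcases h' with h' | ⟨h3, h4⟩ | ⟨h3, h4⟩
  · exact Or.inl (s.trans' h h')
  · exact Or.inr (Or.inl ⟨s.trans' h h3, h4⟩)
  · exact Or.inr (Or.inr ⟨s.trans' h h3, h4⟩)
  · exact Or.inr (Or.inl ⟨h1, s.trans' (s.symm' h') h2⟩)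
  · exact Or.inr (Or.inl ⟨h1, h4⟩)
  · exact Or.inl (s.trans' h1 (s.symm' h4))
  · exact Or.inr (Or.inr ⟨h1, s.trans' (s.symm' h') h2⟩)
  · exact Or.inl (s.trans' h1 (s.symm' h4))
  · exact Or.inr (Or.inr ⟨h1, h4⟩)

theorem merge [Finite D] (s s' : Setoid D) (x y : D) (hxy : ¬ s.r x y)
    (h : ∀ u v, s'.r u v ↔ Jn s x y u v) :
    Nat.card (Quotient s') + 1 = Nat.card (Quotient s) := by
  classical
  rw [← Finite.card_option]
  have hle : ∀ u v, s.r u v → s'.r u v := fun u v huv => (h u v).2 (Or.inl huv)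
  symm
  let g : Quotient s → Quotient s' := Quotient.map' id hle
  have hg : ∀ u, g (Quotient.mk s u) = Quotient.mk s' u := fun u => rfl
  refine Nat.card_eq_of_bijective
    (fun q => if q = Quotient.mk s y then none else some (g q)) ⟨?_, ?_⟩
  · intro p q
    refine Quotient.inductionOn₂ p q ?_
    intro u v huv
    dsimp only at huv
    by_cases hu : Quotient.mk s u = Quotient.mk s y
    · by_cases hv : Quotient.mk s v = Quotient.mk s y
      · exact hu.trans hv.symm
      · rw [if_pos hu, if_neg hv] at huv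
        exact absurd huv (by simp)
    · by_cases hv : Quotient.mk s v = Quotient.mk s y
      · rw [if_neg hu, if_pos hv] at huv
        exact absurd huv (by simp)
      · rw [if_neg hu, if_neg hv, hg, hg] at huv
        have h1 : s'.r u v := Quotient.exact (Option.some.inj huv)
        rcases (h u v).1 h1 with h2 | ⟨_, h2⟩ | ⟨h2, _⟩
        · exact Quotient.sound h2
        · exact absurd (Quotient.sound h2) hv
        · exact absurd (Quotient.sound h2) hu
  · intro o
    cases o with
    | none => exact ⟨Quotient.mk s y, if_pos rfl⟩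
    | some q =>
      refine Quotient.inductionOn q ?_
      intro u
      by_cases hu : Quotient.mk s u = Quotient.mk s y
      · refine ⟨Quotient.mk s x, ?_⟩
        have h1 : Quotient.mk s x ≠ Quotient.mk s y := fun h2 => hxy (Quotient.exact h2)
        dsimp only
        rw [if_neg h1, hg]
        refine congrArg some (Quotient.sound ?_)
        exact (h x u).2 (Or.inr (Or.inl ⟨s.refl' x, Quotient.exact hu⟩))
      · refine ⟨Quotient.mk s u, ?_⟩
        dsimp only
        rw [if_neg hu, hg]

end Merge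

section Cycles

variable {D : Type} [Fintype D] [DecidableEq D]

theorem same_of_step (π : Perm D) (R : D → D → Prop) (hr : ∀ u, R u u)
    (hs : ∀ u v, R u v → R v u) (ht : ∀ u v w, R u v → R v w → R u w) (h : ∀ u, R u (π u))
    {u v : D} (huv : π.SameCycle u v) : R u v := by
  have key : ∀ i : ℤ, R u ((π ^ i) u) := by
    intro i
    induction i using Int.induction_on with
    | zero => simpa using hr u
    | succ i ih =>
      have h1 : (π ^ ((i : ℤ) + 1)) u = π ((π ^ (i : ℤ)) u) := by
        rw [add_comm, zpow_add, zpow_one]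
        rfl
      rw [h1]
      exact ht _ _ _ ih (h _)
    | pred i ih =>
      have h1 : π ((π ^ (-(i : ℤ) - 1)) u) = (π ^ (-(i : ℤ))) u := by
        rw [← Perm.mul_apply, ← zpow_one_add]
        congr 2
        ring
      refine ht _ _ _ ih (hs _ _ ?_)
      have h2 := h ((π ^ (-(i : ℤ) - 1)) u)
      rwa [h1] at h2
  obtain ⟨i, hi⟩ := huv
  rw [← hi]
  exact key i

/-- a set closed under `π` contains the cycle of each of its elements -/
theorem mem_of_closed (π : Perm D) (A : Set D) (hA : ∀ u ∈ A, π u ∈ A) {u v : D} (hu : u ∈ A)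
    (huv : π.SameCycle u v) : v ∈ A := by
  obtain ⟨n, hn, hn'⟩ := huv.exists_pow_eq'
  rw [← hn']
  clear hn hn'
  induction n with
  | zero => simpa using hu
  | succ n ih =>
    rw [pow_succ', Perm.mul_apply]
    exact hA _ ih

/-- following `swap x y * π` from `u` until the first time `π` hits `x` or `y` -/
theorem follow (π : Perm D) (x y u : D) : ∀ m : ℕ,
    (∀ j, 0 < j → j ≤ m → (π ^ j) u ≠ x ∧ (π ^ j) u ≠ y) → ((swap x y * π) ^ m) u = (π ^ m) u
  | 0, _ => rfl
  | m + 1, h => by
    rw [pow_succ', Perm.mul_apply, follow π x y u m (fun j h1 h2 => h j h1 (by omega))]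
    have h1 := h (m + 1) (by omega) le_rfl
    rw [Perm.mul_apply, ← Perm.mul_apply π, ← pow_succ', swap_apply_of_ne_of_ne h1.1 h1.2]

/-- different cycles are joined -/
theorem join_same (π : Perm D) (x y : D) (h : ¬ π.SameCycle x y) :
    (swap x y * π).SameCycle x y := by
  classical
  have hex : ∃ m, 0 < m ∧ (π ^ m) y = y := by
    refine ⟨orderOf π, orderOf_pos π, ?_⟩
    rw [pow_orderOf_eq_one]
    rfl
  obtain ⟨h0, h1⟩ := Nat.find_spec hex
  have hmin : ∀ j, j < Nat.find hex → ¬ (0 < j ∧ (π ^ j) y = y) := fun j hj => Nat.find_min hex hj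
  obtain ⟨m, hm⟩ : ∃ m, Nat.find hex = m + 1 := ⟨Nat.find hex - 1, by omega⟩
  rw [hm] at h1 hmin
  have hf := follow π x y y m (by
    intro j hj hjm
    refine ⟨fun h2 => h ?_, fun h2 => hmin j (by omega) ⟨hj, h2⟩⟩
    have h3 : π.SameCycle y x := ⟨(j : ℤ), by rw [zpow_natCast]; exact h2⟩
    exact h3.symm)
  have h2 : ((swap x y * π) ^ (m + 1)) y = x := by
    rw [pow_succ', Perm.mul_apply, hf, Perm.mul_apply, ← Perm.mul_apply π, ← pow_succ', h1,
      swap_apply_right]
  have h3 : (swap x y * π).SameCycle y x := ⟨((m + 1 : ℕ) : ℤ), by rw [zpow_natCast]; exact h2⟩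
  exact h3.symm

/-- a cycle is split -/
theorem split_not_same (π : Perm D) (x y : D) (hne : x ≠ y) (h : π.SameCycle x y) :
    ¬ (swap x y * π).SameCycle x y := by
  classical
  have hex : ∃ m, 0 < m ∧ (π ^ m) x = y := by
    obtain ⟨n, _, hn⟩ := h.exists_pow_eq'
    refine ⟨n, ?_, hn⟩
    rcases Nat.eq_zero_or_pos n with h0 | h0
    · subst h0
      exact absurd hn hne
    · exact h0
  obtain ⟨h0, h1⟩ := Nat.find_spec hex
  have hmin : ∀ j, j < Nat.find hex → ¬ (0 < j ∧ (π ^ j) x = y) := fun j hj => Nat.find_min hex hj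
  generalize Nat.find hex = m at h0 h1 hmin
  intro hs
  have hA := mem_of_closed (swap x y * π) {u | ∃ j, j < m ∧ u = (π ^ j) x} (by
    rintro u ⟨j, hj, rfl⟩
    have h2 : (swap x y * π) ((π ^ j) x) = swap x y ((π ^ (j + 1)) x) := by
      rw [Perm.mul_apply, ← Perm.mul_apply π, ← pow_succ']
    rw [h2]
    rcases Nat.lt_or_ge (j + 1) m with hlt | hge
    · refine ⟨j + 1, hlt, ?_⟩
      refine swap_apply_of_ne_of_ne ?_ ?_
      · intro h3
        refine hmin (m - (j + 1)) (by omega) ⟨by omega, ?_⟩
        calc (π ^ (m - (j + 1))) x = (π ^ (m - (j + 1))) ((π ^ (j + 1)) x) := by rw [h3]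
          _ = (π ^ m) x := by
            rw [← Perm.mul_apply, ← pow_add]
            congr 2
            omega
          _ = y := h1
      · intro h3
        exact hmin (j + 1) hlt ⟨by omega, h3⟩
    · have h3 : j + 1 = m := by omega
      refine ⟨0, h0, ?_⟩
      rw [h3, h1, swap_apply_right]
      rfl) (u := x) ⟨0, h0, rfl⟩ hs
  obtain ⟨j, hj, h2⟩ := hA
  rcases Nat.eq_zero_or_pos j with h3 | h3
  · subst h3
    exact hne h2.symm
  · exact hmin j hj ⟨h3, h2.symm⟩

theorem cyc_join (π : Perm D) (x y : D) (h : ¬ π.SameCycle x y) :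
    cyc (swap x y * π) + 1 = cyc π := by
  refine merge (Perm.SameCycle.setoid π) (Perm.SameCycle.setoid (swap x y * π)) x y h ?_
  intro u v
  have hj := join_same π x y h
  constructor
  · intro huv
    refine same_of_step (swap x y * π) (Jn (Perm.SameCycle.setoid π) x y) (jn_refl _ x y)
      (fun _ _ => jn_symm _ x y) (fun _ _ _ => jn_trans _ x y) ?_ huv
    intro w
    have hw : π.SameCycle w (π w) := ⟨1, by simp⟩
    rw [Perm.mul_apply]
    by_cases h1 : π w = x
    · rw [h1, swap_apply_left]
      rw [h1] at hw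
      exact Or.inr (Or.inl ⟨hw, Perm.SameCycle.refl _ _⟩)
    · by_cases h2 : π w = y
      · rw [h2, swap_apply_right]
        rw [h2] at hw
        exact Or.inr (Or.inr ⟨hw, Perm.SameCycle.refl _ _⟩)
      · rw [swap_apply_of_ne_of_ne h1 h2]
        exact Or.inl hw
  · have key : ∀ a b, π.SameCycle a b → (swap x y * π).SameCycle a b := by
      intro a b hab
      refine same_of_step π (fun a b => (swap x y * π).SameCycle a b)
        (Perm.SameCycle.refl _) (fun _ _ h => h.symm) (fun _ _ _ h h' => h.trans h') ?_ hab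
      intro w
      have hw : (swap x y * π).SameCycle w ((swap x y * π) w) := ⟨1, by simp⟩
      rw [Perm.mul_apply] at hw
      by_cases h1 : π w = x
      · rw [h1, swap_apply_left] at hw
        rw [h1]
        exact hw.trans hj.symm
      · by_cases h2 : π w = y
        · rw [h2, swap_apply_right] at hw
          rw [h2]
          exact hw.trans hj
        · rwa [swap_apply_of_ne_of_ne h1 h2] at hw
    rintro (huv | ⟨h1, h2⟩ | ⟨h1, h2⟩)
    · exact key _ _ huv
    · exact (key _ _ h1).trans (hj.trans (key _ _ h2).symm)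
    · exact (key _ _ h1).trans (hj.symm.trans (key _ _ h2).symm)

end Cycles

/-- module CYC -/
theorem cycm : CycStmt := by
  intro D _ _ π x y hne
  refine ⟨fun h => ?_, cyc_join π x y⟩
  have h1 := cyc_join (swap x y * π) x y (split_not_same π x y hne h)
  rw [← mul_assoc, swap_mul_self, one_mul] at h1
  exact h1.symm

end Pool.Agent.HAM.H50
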